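import Pool.Agent.R57.EternalFan

/-!
# MP_16080b_co, Q1: Bob may need more than two rounds

For the fan `K_1 ∨ P_4` (five vertices) the eternal game chromatic number is `6`, and with `5`
colours Bob needs exactly `6` rounds. Hence it is false that Bob can
always force a win before round 3 begins.
-/

namespace Pool.Agent.Results.MP_16080b_co.FanSixRounds

open Pool.Agent.R57.Eternal Pool.Agent.R57.Eternal.Fan

theorem five_lt : 5 < chi fan := by
  apply lt_chi_of
  intro j h1 h2
  interval_cases j
  · exact ⟨2, (val1 2 (by norm_num)).mpr le_rfl⟩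
  · exact ⟨4, (val2 4 (by norm_num)).mpr le_rfl⟩
  · exact ⟨6, (val3 6 (by norm_num)).mpr le_rfl⟩
  · exact ⟨8, (val4 8 (by norm_num)).mpr le_rfl⟩
  · exact ⟨26, (val5 26 (by norm_num)).mpr le_rfl⟩

theorem le_six : chi fan ≤ 6 :=
  Nat.sInf_le ⟨by norm_num, aliceWins_of_card_lt fan 6 (by simp)⟩

theorem rounds_five : rounds fan 5 = 6 := by
  apply rounds_eq_of
  · rw [Fintype.card_fin]
    exact (val5 30 (by norm_num)).mpr (by norm_num)
  · intro s hs h
    rw [Fintype.card_fin, val5 _ (by omega)] at h
    omega

/-- The fan `K_1 ∨ P_4` has eternal game chromatic number `6`, and with `5` colours Bob needs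
exactly `6` rounds. -/
theorem result : chi fan = 6 ∧ rounds fan 5 = 6 :=
  ⟨le_antisymm le_six five_lt, rounds_five⟩

end Pool.Agent.Results.MP_16080b_co.FanSixRounds
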